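import Mathlib

/-!
# MP_ca4252_co, Q1: `(A(d) - 1) / d < √5 / τ` for the Fibonacci word
-/

set_option autoImplicit false

namespace Pool.Agent.Results.MP_ca4252_co.FibonacciWord

/-- the substitution `0 ↦ 01`, `1 ↦ 0` -/
def subst : ℕ → List ℕ
  | 0 => [0, 1]
  | _ => [0]

/-- the `n`-th iterate of the substitution on the word `0` -/
def W : ℕ → List ℕ
  | 0 => [0]
  | n + 1 => (W n).flatMap subst

/-- the Fibonacci word, the limit of the words `W n` (see the first part of `result`) -/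
def f (i : ℕ) : ℕ := (W i).getD i 0

/-- the largest length of a monochromatic arithmetic progression of difference `d` in `f` -/
noncomputable def A (d : ℕ) : ℕ := sSup {k : ℕ | ∃ i, ∀ j < k, f (i + j * d) = f i}

/-! ### The golden ratio -/

/-- the golden ratio -/
noncomputable def τ : ℝ := Real.goldenRatio

lemma tsq : τ ^ 2 = τ + 1 := Real.goldenRatio_sq

lemma t_gt : 1.618 < τ := by
  have h := tsq
  have h1 : 1 < τ := Real.one_lt_goldenRatio
  nlinarith

lemma t_lt : τ < 1.6181 := by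
  have h := tsq
  have h1 : 1 < τ := Real.one_lt_goldenRatio
  nlinarith

lemma sqrt5 : Real.sqrt 5 = 2 * τ - 1 := by
  unfold τ Real.goldenRatio; ring

lemma target : Real.sqrt 5 / τ = 3 - τ := by
  have h1 : 0 < τ := Real.goldenRatio_pos
  rw [sqrt5, div_eq_iff h1.ne']
  linear_combination tsq

/-- the norm form -/
lemma norm_form {t p : ℤ} (ht : t ≠ 0) : 1 ≤ |((p : ℝ) - t * τ) * (p - t * (1 - τ))| := by
  have h1 : ((p : ℝ) - t * τ) * (p - t * (1 - τ)) = ((p ^ 2 - p * t - t ^ 2 : ℤ) : ℝ) := by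
    push_cast
    linear_combination (-(t : ℝ) ^ 2) * tsq
  have h2 : (p ^ 2 - p * t - t ^ 2 : ℤ) ≠ 0 := by
    intro h
    rw [h] at h1
    simp only [Int.cast_zero, mul_eq_zero] at h1
    have hirr : Irrational τ := Real.goldenRatio_irrational
    rcases h1 with h1 | h1
    · have : τ = ((p / t : ℚ) : ℝ) := by
        have ht' : (t : ℝ) ≠ 0 := by exact_mod_cast ht
        push_cast
        field_simp
        linarith
      exact hirr ⟨_, this.symm⟩
    · have : τ = ((1 - p / t : ℚ) : ℝ) := by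
        have ht' : (t : ℝ) ≠ 0 := by exact_mod_cast ht
        push_cast
        field_simp
        linarith
      exact hirr ⟨_, this.symm⟩
  rw [h1, ← Int.cast_abs]
  exact_mod_cast Int.one_le_abs h2

/-! ### The Sturmian description -/

/-- the Sturmian formula for the letters -/
noncomputable def s (i : ℕ) : ℤ := 2 + ⌊((i : ℝ) + 1) * τ⌋ - ⌊((i : ℝ) + 2) * τ⌋

lemma W_add (n : ℕ) : W (n + 2) = W (n + 1) ++ W n := by
  induction n with
  | zero => rfl
  | succ n ih =>
    change (W (n + 2)).flatMap subst = (W (n + 1)).flatMap subst ++ (W n).flatMap subst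
    rw [← List.flatMap_append, ih]

lemma W_length (n : ℕ) : (W n).length = Nat.fib (n + 2) := by
  induction n using Nat.twoStepInduction with
  | zero => rfl
  | one => rfl
  | more n h1 h2 =>
    rw [W_add, List.length_append, h1, h2, Nat.fib_add_two (n := n + 2), add_comm]

lemma fl {x : ℝ} {n : ℤ} (h1 : (n : ℝ) ≤ x) (h2 : x < n + 1) : ⌊x⌋ = n :=
  Int.floor_eq_iff.2 ⟨h1, h2⟩

lemma fib_shift {m t : ℕ} (hm : 5 ≤ m) (ht : 1 ≤ t) (ht2 : t ≤ Nat.fib (m - 1) + 1) :
    ⌊((t : ℝ) + Nat.fib m) * τ⌋ = ⌊(t : ℝ) * τ⌋ + Nat.fib (m + 1) := by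
  set e : ℝ := (1 - τ) ^ m with he
  have hfib : (Nat.fib m : ℝ) * τ = Nat.fib (m + 1) - e := by
    have := Real.fib_succ_sub_goldenRatio_mul_fib m
    have h1 : Real.goldenConj = 1 - τ := Real.one_sub_goldenConj.symm
    rw [h1] at this
    change (Nat.fib (m + 1) : ℝ) - τ * Nat.fib m = _ at this
    rw [he]
    linarith
  set a : ℝ := τ - 1 with ha
  have ha0 : 0 < a := by have := t_gt; rw [ha]; linarith
  have ha1 : a < 0.6181 := by have := t_lt; rw [ha]; linarith
  have hae : |e| = a ^ m := by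
    rw [he, abs_pow, abs_sub_comm, abs_of_pos ha0]
  -- size of a^m
  have hapow : a ^ m ≤ 0.0903 := by
    calc a ^ m ≤ a ^ 5 := pow_le_pow_of_le_one ha0.le (by linarith) hm
      _ ≤ 0.6181 ^ 5 := pow_le_pow_left₀ ha0.le ha1.le 5
      _ ≤ 0.0903 := by norm_num
  have hapos : 0 < a ^ m := pow_pos ha0 m
  -- √5 F_{m-1} a^m
  have hF : (2 * τ - 1) * Nat.fib (m - 1) * a ^ m ≤ a + a ^ m := by
    obtain ⟨k, rfl⟩ : ∃ k, m = k + 1 := ⟨m - 1, by omega⟩
    rw [Nat.add_sub_cancel]
    have h1 : (2 * τ - 1) * (Nat.fib k : ℝ) = τ ^ k - (1 - τ) ^ k := by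
      have h2 := Real.coe_fib_eq k
      have h3 : Real.goldenConj = 1 - τ := Real.one_sub_goldenConj.symm
      rw [h3] at h2
      change (Nat.fib k : ℝ) = (τ ^ k - (1 - τ) ^ k) / Real.sqrt 5 at h2
      have : Real.sqrt 5 ≠ 0 := by positivity
      rw [h2, ← sqrt5]
      field_simp
    rw [h1, pow_succ]
    have h3 : τ ^ k * a ^ k = 1 := by
      rw [← mul_pow]
      have : τ * a = 1 := by rw [ha]; linear_combination tsq
      rw [this, one_pow]
    have h4 : -(1 - τ) ^ k * (a ^ k * a) ≤ a ^ k * a := by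
      have h5 : -(1 - τ) ^ k ≤ 1 := by
        have h6 : |(1 - τ) ^ k| ≤ 1 := by
          rw [abs_pow, abs_sub_comm, abs_of_pos ha0]
          exact pow_le_one₀ ha0.le (by linarith)
        have := abs_le.1 h6
        linarith
      have h7 : 0 < a ^ k * a := by positivity
      nlinarith
    calc (τ ^ k - (1 - τ) ^ k) * (a ^ k * a) = (τ ^ k * a ^ k) * a + (-(1 - τ) ^ k * (a ^ k * a)) := by ring
      _ ≤ a + a ^ k * a := by rw [h3]; linarith
  have key : ∀ p : ℤ, |(p : ℝ) - t * τ| ≤ a ^ m → False := by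
    intro p hp
    have h1 := norm_form (t := t) (p := p) (by exact_mod_cast (by omega : t ≠ 0))
    push_cast at h1
    rw [abs_mul] at h1
    have h2 : |(p : ℝ) - t * (1 - τ)| ≤ a ^ m + (2 * τ - 1) * t := by
      have e1 : (p : ℝ) - t * (1 - τ) = (p - t * τ) + (2 * τ - 1) * t := by ring
      rw [e1]
      refine (abs_add_le _ _).trans ?_
      have : (0 : ℝ) ≤ (2 * τ - 1) * t := by
        have := t_gt
        have : (0 : ℝ) ≤ t := by positivity
        nlinarith
      rw [abs_of_nonneg this]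
      linarith
    have h3 : 1 ≤ a ^ m * (a ^ m + (2 * τ - 1) * t) := by
      refine h1.trans ?_
      exact mul_le_mul hp h2 (abs_nonneg _) hapos.le
    have ht3 : (t : ℝ) ≤ Nat.fib (m - 1) + 1 := by exact_mod_cast ht2
    have h4 : a ^ m * ((2 * τ - 1) * t) ≤ (a + a ^ m) + (2 * τ - 1) * a ^ m := by
      have : (2 * τ - 1) * a ^ m * t ≤ (2 * τ - 1) * a ^ m * (Nat.fib (m - 1) + 1) := by
        apply mul_le_mul_of_nonneg_left ht3
        have := t_gt
        have : (0 : ℝ) < 2 * τ - 1 := by linarith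
        positivity
      nlinarith
    have h5 := t_lt
    have h6 := t_gt
    nlinarith
  have e1 : ((t : ℝ) + Nat.fib m) * τ = (t * τ - e) + ((Nat.fib (m + 1) : ℤ) : ℝ) := by
    push_cast
    linarith
  rw [e1, Int.floor_add_intCast]
  congr 1
  refine fl ?_ ?_
  · by_contra hcon
    push Not at hcon
    refine key ⌊(t : ℝ) * τ⌋ ?_
    have := Int.floor_le ((t : ℝ) * τ)
    rw [abs_le, ← hae]
    have := le_abs_self e
    have := neg_abs_le e
    constructor <;> linarith
  · by_contra hcon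
    push Not at hcon
    refine key (⌊(t : ℝ) * τ⌋ + 1) ?_
    have := Int.lt_floor_add_one ((t : ℝ) * τ)
    rw [abs_le, ← hae]
    have := le_abs_self e
    have := neg_abs_le e
    push_cast
    constructor <;> linarith

lemma s_shift {m j : ℕ} (hm : 5 ≤ m) (hj : j < Nat.fib (m - 1)) : s (Nat.fib m + j) = s j := by
  unfold s
  have h1 := fib_shift hm (t := j + 1) (by omega) (by omega)
  have h2 := fib_shift hm (t := j + 2) (by omega) (by omega)
  have e1 : (((Nat.fib m + j : ℕ) : ℝ) + 1) * τ = (((j + 1 : ℕ) : ℝ) + Nat.fib m) * τ := by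
    push_cast; ring
  have e2 : (((Nat.fib m + j : ℕ) : ℝ) + 2) * τ = (((j + 2 : ℕ) : ℝ) + Nat.fib m) * τ := by
    push_cast; ring
  rw [e1, e2, h1, h2]
  push_cast
  ring

lemma s_small : s 0 = 0 ∧ s 1 = 1 ∧ s 2 = 0 ∧ s 3 = 0 ∧ s 4 = 1 := by
  have h1 := t_gt
  have h2 := t_lt
  have f1 : ⌊(1 : ℝ) * τ⌋ = 1 := fl (by push_cast; linarith) (by push_cast; linarith)
  have f2 : ⌊(2 : ℝ) * τ⌋ = 3 := fl (by push_cast; linarith) (by push_cast; linarith)
  have f3 : ⌊(3 : ℝ) * τ⌋ = 4 := fl (by push_cast; linarith) (by push_cast; linarith)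
  have f4 : ⌊(4 : ℝ) * τ⌋ = 6 := fl (by push_cast; linarith) (by push_cast; linarith)
  have f5 : ⌊(5 : ℝ) * τ⌋ = 8 := fl (by push_cast; linarith) (by push_cast; linarith)
  have f6 : ⌊(6 : ℝ) * τ⌋ = 9 := fl (by push_cast; linarith) (by push_cast; linarith)
  refine ⟨?_, ?_, ?_, ?_, ?_⟩ <;> unfold s <;> norm_num at * <;> simp [f1, f2, f3, f4, f5, f6]

lemma W_letter (n : ℕ) : ∀ i < Nat.fib (n + 2), (((W n).getD i 0 : ℕ) : ℤ) = s i := by
  obtain ⟨s0, s1, s2, s3, s4⟩ := s_small
  have base : ∀ n, n < 4 → ∀ i < Nat.fib (n + 2), (((W n).getD i 0 : ℕ) : ℤ) = s i := by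
    intro n hn i hi
    have h5 : Nat.fib 5 = 5 := rfl
    have h4 : Nat.fib 4 = 3 := rfl
    have h3 : Nat.fib 3 = 2 := rfl
    have h2 : Nat.fib 2 = 1 := rfl
    interval_cases n
    · rw [h2] at hi; interval_cases i; rw [s0]; rfl
    · rw [h3] at hi; interval_cases i
      · rw [s0]; rfl
      · rw [s1]; rfl
    · rw [h4] at hi; interval_cases i
      · rw [s0]; rfl
      · rw [s1]; rfl
      · rw [s2]; rfl
    · rw [h5] at hi; interval_cases i
      · rw [s0]; rfl
      · rw [s1]; rfl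
      · rw [s2]; rfl
      · rw [s3]; rfl
      · rw [s4]; rfl
  induction n using Nat.strong_induction_on with
  | _ n ih =>
    by_cases hn : n < 4
    · exact base n hn
    · obtain ⟨k, rfl⟩ : ∃ k, n = k + 2 := ⟨n - 2, by omega⟩
      intro i hi
      rw [W_add]
      by_cases h : i < Nat.fib (k + 3)
      · rw [List.getD_append _ _ _ _ (by rw [W_length]; exact h)]
        exact ih (k + 1) (by omega) i h
      · push Not at h
        rw [List.getD_append_right _ _ _ _ (by rw [W_length]; exact h), W_length]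
        obtain ⟨j, rfl⟩ : ∃ j, i = Nat.fib (k + 3) + j := ⟨i - Nat.fib (k + 3), by omega⟩
        have hj : j < Nat.fib (k + 2) := by
          have := Nat.fib_add_two (n := k + 2)
          have e3 : Nat.fib (k + 2 + 1) = Nat.fib (k + 3) := rfl
          omega
        have e : Nat.fib (k + 3) + j - Nat.fib (k + 1 + 2) = j := by
          have : k + 1 + 2 = k + 3 := by ring
          rw [this]; omega
        rw [e, ih k (by omega) j hj, s_shift (m := k + 3) (by omega) (by simpa using hj)]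

lemma fib_gt (i : ℕ) : i < Nat.fib (i + 2) := by
  induction i with
  | zero => decide
  | succ i ih =>
    have h := Nat.fib_add_two (n := i + 1)
    have h2 : 0 < Nat.fib (i + 1) := Nat.fib_pos.2 (by omega)
    have e : i + 1 + 2 = i + 1 + 2 := rfl
    have e3 : Nat.fib (i + 1 + 1) = Nat.fib (i + 2) := rfl
    omega

lemma f_eq (i : ℕ) : (f i : ℤ) = s i := W_letter i i (fib_gt i)

/-! ### Rotation -/

/-- position of the `i`-th letter on the circle -/
noncomputable def pos (i : ℕ) : ℝ := Int.fract (((i : ℝ) + 1) * τ)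

lemma f_zero_iff (i : ℕ) : f i = 0 ↔ 2 - τ ≤ pos i := by
  have h := f_eq i
  have hz : f i = 0 ↔ s i = 0 := by rw [← h]; exact_mod_cast Iff.rfl
  rw [hz]
  unfold s pos
  set z : ℝ := ((i : ℝ) + 1) * τ with hzdef
  have e : ((i : ℝ) + 2) * τ = (Int.fract z + τ) + ((⌊z⌋ : ℤ) : ℝ) := by
    have := Int.fract_add_floor z
    rw [add_assoc, add_comm τ, ← add_assoc, this, hzdef]; ring
  rw [e, Int.floor_add_intCast]
  have h0 := Int.fract_nonneg z
  have h1 := Int.fract_lt_one z
  have h2 := t_gt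
  have h3 := t_lt
  constructor
  · intro h
    have h4 : ⌊Int.fract z + τ⌋ = 2 := by omega
    have := Int.floor_le (Int.fract z + τ)
    rw [h4] at this
    push_cast at this
    linarith
  · intro h
    have h4 : ⌊Int.fract z + τ⌋ = 2 := fl (by push_cast; linarith) (by push_cast; linarith)
    rw [h4]; ring

lemma pos_nonneg (i : ℕ) : 0 ≤ pos i := Int.fract_nonneg _
lemma pos_lt_one (i : ℕ) : pos i < 1 := Int.fract_lt_one _

/-- two positions with the same letter are close -/
lemma pos_close {i j : ℕ} (h : f i = f j) : |pos i - pos j| < τ - 1 := by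
  have h2 := t_gt
  have hi := pos_nonneg i
  have hj := pos_nonneg j
  have hi1 := pos_lt_one i
  have hj1 := pos_lt_one j
  rw [abs_lt]
  by_cases h0 : f i = 0
  · have a := (f_zero_iff i).1 h0
    have b := (f_zero_iff j).1 (h ▸ h0)
    constructor <;> linarith
  · have a := mt (f_zero_iff i).2 h0
    have b := mt (f_zero_iff j).2 (h ▸ h0)
    push Not at a b
    constructor <;> linarith

/-- two positions with the letter `1` are very close -/
lemma pos_close_one {i j : ℕ} (h : f i = f j) (h0 : f i ≠ 0) : |pos i - pos j| < 2 - τ := by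
  have hi := pos_nonneg i
  have hj := pos_nonneg j
  have a := mt (f_zero_iff i).2 h0
  have b := mt (f_zero_iff j).2 (h ▸ h0)
  push Not at a b
  rw [abs_lt]
  constructor <;> linarith

/-- the step of the rotation -/
lemma pos_step (i d : ℕ) (p : ℤ) : ∃ m : ℤ, pos (i + d) = pos i + (d * τ - p) + m := by
  refine ⟨⌊((i : ℝ) + 1) * τ⌋ - ⌊(((i + d : ℕ) : ℝ) + 1) * τ⌋ + p, ?_⟩
  unfold pos Int.fract
  push_cast
  ring

lemma int_zero_of_abs_lt_one {m : ℤ} (h : |(m : ℝ)| < 1) : m = 0 := by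
  rw [← Int.cast_abs] at h
  have h1 : |m| < 1 := by exact_mod_cast h
  exact Int.abs_lt_one_iff.1 h1

section main
variable {i d k : ℕ}

/-- no wrapping if the step is at most `2 - τ` -/
lemma lin_steps (hf : ∀ j < k, f (i + j * d) = f i) {p : ℤ} (hσ : |(d : ℝ) * τ - p| ≤ 2 - τ) :
    ∀ j < k, pos (i + j * d) = pos i + j * (d * τ - p) := by
  intro j
  induction j with
  | zero => intro _; simp
  | succ j ih =>
    intro hj
    have h1 := ih (by omega)
    obtain ⟨m, hm⟩ := pos_step (i + j * d) d p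
    have e : i + (j + 1) * d = i + j * d + d := by ring
    rw [e]
    have hc : |pos (i + j * d + d) - pos (i + j * d)| < τ - 1 := by
      apply pos_close
      rw [← e, hf _ hj, hf _ (by omega)]
    have hm0 : m = 0 := by
      apply int_zero_of_abs_lt_one
      have : (m : ℝ) = (pos (i + j * d + d) - pos (i + j * d)) - (d * τ - p) := by rw [hm]; ring
      rw [this]
      have := abs_sub (pos (i + j * d + d) - pos (i + j * d)) (d * τ - p)
      linarith
    rw [hm, hm0, h1]
    push_cast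
    ring

/-- the case of a step of size at most `2 - τ` -/
lemma case_one (hd : 1 ≤ d) (hk : 1 ≤ k) (hf : ∀ j < k, f (i + j * d) = f i) {p : ℤ}
    (hp : |(d : ℝ) * τ - p| ≤ 1 / 2) (hσ : |(d : ℝ) * τ - p| ≤ 2 - τ) :
    ((k : ℝ) - 1) < d * (3 - τ) := by
  have h2 := t_gt
  have h3 := t_lt
  set σ : ℝ := (d : ℝ) * τ - p with hσdef
  obtain ⟨n, rfl⟩ : ∃ n, k = n + 1 := ⟨k - 1, by omega⟩
  have hlin := lin_steps hf hσ n (by omega)
  have hc : |pos (i + n * d) - pos i| < τ - 1 := pos_close (hf n (by omega))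
  rw [hlin, ← hσdef, add_sub_cancel_left, abs_mul, abs_of_nonneg (by positivity : (0 : ℝ) ≤ n)] at hc
  push_cast
  rw [add_sub_cancel_right]
  -- n * |σ| < τ - 1
  have hd0 : (1 : ℝ) ≤ d := by exact_mod_cast hd
  have hn0 : (0 : ℝ) ≤ n := by positivity
  -- norm form
  have hN : ((p : ℝ) - d * τ) * (p - d * (1 - τ)) = ((p ^ 2 - p * d - d ^ 2 : ℤ) : ℝ) := by
    push_cast
    linear_combination (-(d : ℝ) ^ 2) * tsq
  have hnf := norm_form (t := d) (p := p) (by exact_mod_cast (by omega : d ≠ 0))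
  push_cast at hnf
  rw [hN] at hnf
  have e2 : (p : ℝ) - d * (1 - τ) = d * (2 * τ - 1) - σ := by rw [hσdef]; ring
  have e1 : (p : ℝ) - d * τ = -σ := by rw [hσdef]; ring
  rw [e1, e2] at hN
  set N : ℤ := p ^ 2 - p * d - d ^ 2 with hNdef
  have ht : (d : ℝ) * (3 - τ) = (τ - 1) * (d * (2 * τ - 1)) := by
    linear_combination (-2 * (d : ℝ)) * tsq
  have hσ0 : 0 < |σ| := by
    rw [abs_pos]
    intro h0
    rw [h0] at hN
    rw [← hN] at hnf
    norm_num at hnf
  have hprod : |σ| * |(d : ℝ) * (2 * τ - 1) - σ| = |(N : ℝ)| := by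
    rw [← hN, abs_mul, abs_neg]
  have hDpos : 0 < (d : ℝ) * (2 * τ - 1) := by nlinarith
  have hup : |(d : ℝ) * (2 * τ - 1) - σ| ≤ d * (2 * τ - 1) + |σ| := by
    refine (abs_sub _ _).trans ?_
    rw [abs_of_pos hDpos]
  rw [ht]
  set D : ℝ := (d : ℝ) * (2 * τ - 1) with hD
  have hD2 : 2 < D := by nlinarith
  by_cases hN2 : 2 ≤ |N|
  · have hN3 : (2 : ℝ) ≤ |(N : ℝ)| := by rw [← Int.cast_abs]; exact_mod_cast hN2
    rw [← hprod] at hN3
    have h4 : 2 ≤ |σ| * (D + |σ|) := hN3.trans (mul_le_mul_of_nonneg_left hup hσ0.le)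
    have h5 : (n : ℝ) * |σ| * (D + |σ|) ≤ (τ - 1) * (D + |σ|) :=
      mul_le_mul_of_nonneg_right hc.le (by positivity)
    have h6 : (n : ℝ) * 2 ≤ (τ - 1) * (D + |σ|) := by nlinarith
    nlinarith
  · have hN1 : |(N : ℝ)| = 1 := by
      rw [← Int.cast_abs] at hnf ⊢
      have : 1 ≤ |N| := by exact_mod_cast hnf
      have : |N| = 1 := by omega
      rw [this]; norm_num
    rw [hN1] at hprod
    rcases lt_or_ge 0 σ with hs | hs
    · rw [abs_of_pos hs] at hprod hc
      have h7 : 0 < D - σ := by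
        have : |σ| ≤ 1 / 2 := hp
        rw [abs_of_pos hs] at this
        linarith
      rw [abs_of_pos h7] at hprod
      have h8 : (n : ℝ) * σ * (D - σ) < (τ - 1) * (D - σ) := mul_lt_mul_of_pos_right hc h7
      have h9 : (n : ℝ) < (τ - 1) * (D - σ) := by
        calc (n : ℝ) = n * (σ * (D - σ)) := by rw [hprod, mul_one]
          _ = n * σ * (D - σ) := by ring
          _ < _ := h8
      nlinarith
    · have hsn : |σ| = -σ := abs_of_nonpos hs
      rw [hsn] at hprod hc hσ0 hp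
      have h7 : 0 < D - σ := by linarith
      rw [abs_of_pos h7] at hprod
      have h8 : (n : ℝ) * (-σ) * (D - σ) < (τ - 1) * (D - σ) := mul_lt_mul_of_pos_right hc h7
      have h9 : (n : ℝ) < (τ - 1) * (D - σ) := by
        calc (n : ℝ) = n * ((-σ) * (D - σ)) := by rw [hprod, mul_one]
          _ = n * (-σ) * (D - σ) := by ring
          _ < _ := h8
      -- (τ-1) D = 3d - p - σ
      have h10 : (τ - 1) * D = ((3 * d - p : ℤ) : ℝ) - σ := by
        rw [← ht, hσdef]; push_cast; ring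
      have h11 : (n : ℝ) < ((3 * d - p : ℤ) : ℝ) + 1 := by nlinarith
      have h12 : (n : ℤ) < (3 * d - p : ℤ) + 1 := by exact_mod_cast h11
      have h13 : (n : ℤ) ≤ (3 * d - p : ℤ) := by omega
      have h14 : (n : ℝ) ≤ ((3 * d - p : ℤ) : ℝ) := by exact_mod_cast h13
      linarith

/-- hopping sequences -/
lemma hop {x : ℕ → ℝ} {k : ℕ} {σ : ℝ} (hk : 2 ≤ k) (hσ : 2 - τ < σ) (hσ' : σ ≤ 1 / 2)
    (hx : ∀ a < k, ∀ b < k, |x a - x b| < τ - 1)
    (hstep : ∀ j, j + 1 < k → ∃ m : ℤ, x (j + 1) = x j + σ + m) :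
    ∃ m : ℕ, (k ≤ 2 * m + 2 ∧ m * (1 - 2 * σ) < τ - 1 - σ) ∨
      (k ≤ 2 * m + 3 ∧ m * (1 - 2 * σ) < τ - 2 + σ) := by
  have h2 := t_gt
  have h3 := t_lt
  have two : ∀ j, j + 2 < k → x (j + 2) = x j - (1 - 2 * σ) := by
    intro j hj
    obtain ⟨m₁, h₁⟩ := hstep j (by omega)
    obtain ⟨m₂, h₂⟩ := hstep (j + 1) (by omega)
    have h4 := hx (j + 2) hj j (by omega)
    have h5 : x (j + 2) - x j = -(1 - 2 * σ) + ((m₁ + m₂ + 1 : ℤ) : ℝ) := by
      change x (j + 1 + 1) - x j = _
      rw [h₂, h₁]; push_cast; ring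
    have h6 : m₁ + m₂ + 1 = 0 := by
      apply int_zero_of_abs_lt_one
      have : ((m₁ + m₂ + 1 : ℤ) : ℝ) = (x (j + 2) - x j) + (1 - 2 * σ) := by rw [h5]; ring
      rw [this]
      refine (abs_add_le _ _).trans_lt ?_
      rw [abs_of_nonneg (by linarith : (0 : ℝ) ≤ 1 - 2 * σ)]
      linarith
    rw [h6] at h5
    push_cast at h5
    linarith
  have even : ∀ m : ℕ, 2 * m < k → x (2 * m) = x 0 - m * (1 - 2 * σ) := by
    intro m
    induction m with
    | zero => intro _; simp
    | succ m ih =>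
      intro hm
      have := two (2 * m) (by omega)
      have e : 2 * (m + 1) = 2 * m + 2 := by ring
      rw [e, this, ih (by omega)]
      push_cast; ring
  have odd : ∀ m : ℕ, 2 * m + 1 < k → x (2 * m + 1) = x 1 - m * (1 - 2 * σ) := by
    intro m
    induction m with
    | zero => intro _; simp
    | succ m ih =>
      intro hm
      have := two (2 * m + 1) (by omega)
      have e : 2 * (m + 1) + 1 = 2 * m + 1 + 2 := by ring
      rw [e, this, ih (by omega)]
      push_cast; ring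
  obtain ⟨m, hm⟩ := hstep 0 (by omega)
  rw [zero_add] at hm
  have h01 := hx 1 (by omega) 0 (by omega)
  have hmc : m = 0 ∨ m = -1 := by
    have e : (m : ℝ) = (x 1 - x 0) - σ := by rw [hm]; ring
    have h4 := abs_lt.1 h01
    have h5 : (m : ℝ) < 1 := by rw [e]; linarith
    have h6 : (-2 : ℝ) < m := by rw [e]; linarith
    have h7 : m < 1 := by exact_mod_cast h5
    have h8 : -2 < m := by exact_mod_cast h6
    omega
  rcases hmc with rfl | rfl
  · refine ⟨(k - 1) / 2, Or.inl ⟨by omega, ?_⟩⟩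
    have h4 := hx 1 (by omega) (2 * ((k - 1) / 2)) (by omega)
    rw [even _ (by omega), hm] at h4
    have h5 := (abs_lt.1 h4).2
    push_cast at h5
    linarith
  · refine ⟨(k - 2) / 2, Or.inr ⟨by omega, ?_⟩⟩
    have h4 := hx 0 (by omega) (2 * ((k - 2) / 2) + 1) (by omega)
    rw [odd _ (by omega), hm] at h4
    have h5 := (abs_lt.1 h4).2
    push_cast at h5
    linarith

/-- consequence of `hop` for the positions -/
lemma hop_pos (hk : 2 ≤ k) (hf : ∀ j < k, f (i + j * d) = f i) {p : ℤ}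
    (hp : |(d : ℝ) * τ - p| ≤ 1 / 2) (hσ : 2 - τ < |(d : ℝ) * τ - p|) :
    ∃ m : ℕ, (k ≤ 2 * m + 2 ∧ m * (1 - 2 * |(d : ℝ) * τ - p|) < τ - 1 - |(d : ℝ) * τ - p|) ∨
      (k ≤ 2 * m + 3 ∧ m * (1 - 2 * |(d : ℝ) * τ - p|) < τ - 2 + |(d : ℝ) * τ - p|) := by
  have hx : ∀ a < k, ∀ b < k, |pos (i + a * d) - pos (i + b * d)| < τ - 1 := by
    intro a ha b hb
    apply pos_close
    rw [hf a ha, hf b hb]
  have hstep : ∀ j, ∃ m : ℤ, pos (i + (j + 1) * d) = pos (i + j * d) + (d * τ - p) + m := by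
    intro j
    obtain ⟨m, hm⟩ := pos_step (i + j * d) d p
    refine ⟨m, ?_⟩
    rw [← hm]; congr 1; ring
  rcases le_or_gt 0 ((d : ℝ) * τ - p) with hs | hs
  · rw [abs_of_nonneg hs] at hp hσ ⊢
    exact hop (x := fun j => pos (i + j * d)) hk hσ hp hx (fun j _ => hstep j)
  · rw [abs_of_neg hs] at hp hσ ⊢
    refine hop (x := fun j => pos (i + (k - 1 - j) * d)) hk hσ hp
      (fun a ha b hb => hx _ (by omega) _ (by omega)) ?_
    intro j hj
    obtain ⟨m, hm⟩ := hstep (k - 1 - (j + 1))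
    refine ⟨-m, ?_⟩
    have e : k - 1 - (j + 1) + 1 = k - 1 - j := by omega
    rw [e] at hm
    change pos (i + (k - 1 - (j + 1)) * d) = pos (i + (k - 1 - j) * d) + -((d : ℝ) * τ - p) + ((-m : ℤ) : ℝ)
    rw [hm]
    push_cast
    ring

/-- the case of a step of size more than `2 - τ` -/
lemma case_two (hd : 1 ≤ d) (hk : 1 ≤ k) (hf : ∀ j < k, f (i + j * d) = f i) {p : ℤ}
    (hp : |(d : ℝ) * τ - p| ≤ 1 / 2) (hσ : 2 - τ < |(d : ℝ) * τ - p|) :
    ((k : ℝ) - 1) < d * (3 - τ) := by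
  have h2 := t_gt
  have h3 := t_lt
  have hd0 : (1 : ℝ) ≤ d := by exact_mod_cast hd
  by_cases hk2 : k = 1
  · subst hk2; push_cast; nlinarith
  have hop' := hop_pos (by omega) hf hp hσ
  by_cases hd7 : 7 ≤ d
  · set β : ℝ := |(d : ℝ) * τ - p| with hβ
    -- (k - 1) (1 - 2β) < 2 τ - 3 + 2 (1 - 2β)
    have hδ0 : 0 ≤ 1 - 2 * β := by linarith
    have hcount : ((k : ℝ) - 1) * (1 - 2 * β) < 2 * τ - 3 + 2 * (1 - 2 * β) := by
      obtain ⟨m, ⟨h4, h5⟩ | ⟨h4, h5⟩⟩ := hop'
      · have h6 : (k : ℝ) ≤ 2 * m + 2 := by exact_mod_cast h4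
        have h7 : ((k : ℝ) - 1) * (1 - 2 * β) ≤ (2 * m + 1) * (1 - 2 * β) :=
          mul_le_mul_of_nonneg_right (by linarith) hδ0
        linarith
      · have h6 : (k : ℝ) ≤ 2 * m + 3 := by exact_mod_cast h4
        have h7 : ((k : ℝ) - 1) * (1 - 2 * β) ≤ (2 * m + 2) * (1 - 2 * β) :=
          mul_le_mul_of_nonneg_right (by linarith) hδ0
        linarith
    -- norm form for 2 d
    obtain ⟨P, hP⟩ : ∃ P : ℤ, |(P : ℝ) - (2 * d : ℕ) * τ| = 1 - 2 * β := by
      rcases le_or_gt 0 ((d : ℝ) * τ - p) with hs | hs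
      · refine ⟨2 * p + 1, ?_⟩
        rw [hβ, abs_of_nonneg hs] at *
        push_cast
        rw [abs_of_nonneg (by linarith)]; ring
      · refine ⟨2 * p - 1, ?_⟩
        rw [hβ, abs_of_neg hs] at *
        push_cast
        rw [abs_of_nonpos (by linarith)]; ring
    have hnf := norm_form (t := (2 * d : ℕ)) (p := P) (by exact_mod_cast (by omega : 2 * d ≠ 0))
    rw [abs_mul] at hnf
    have hup : |(P : ℝ) - ((2 * d : ℕ) : ℤ) * (1 - τ)| ≤ (1 - 2 * β) + 2 * d * (2 * τ - 1) := by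
      have e : (P : ℝ) - ((2 * d : ℕ) : ℤ) * (1 - τ) = (P - (2 * d : ℕ) * τ) + 2 * d * (2 * τ - 1) := by
        push_cast; ring
      rw [e]
      refine (abs_add_le _ _).trans ?_
      rw [hP, abs_of_nonneg (by nlinarith : (0 : ℝ) ≤ 2 * d * (2 * τ - 1))]
    have e3 : |(P : ℝ) - ((2 * d : ℕ) : ℤ) * τ| = 1 - 2 * β := by rw [← hP]; norm_cast
    rw [e3] at hnf
    have h4 : 1 ≤ (1 - 2 * β) * ((1 - 2 * β) + 2 * d * (2 * τ - 1)) :=
      hnf.trans (mul_le_mul_of_nonneg_left hup hδ0)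
    have hd7' : (7 : ℝ) ≤ d := by exact_mod_cast hd7
    set δ : ℝ := 1 - 2 * β with hδ
    have hδ1 : δ < 2 * τ - 3 := by rw [hδ]; linarith
    set E : ℝ := δ + 2 * d * (2 * τ - 1) with hE
    have hE0 : 0 < E := by rw [hE]; nlinarith
    rcases le_or_gt (k : ℝ) 3 with hk3 | hk3
    · nlinarith
    · have h5 : ((k : ℝ) - 3) * δ < 2 * τ - 3 := by linarith
      have h6 : ((k : ℝ) - 3) * δ * E < (2 * τ - 3) * E := mul_lt_mul_of_pos_right h5 hE0
      have h7 : (k : ℝ) - 3 ≤ ((k : ℝ) - 3) * δ * E := by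
        have : ((k : ℝ) - 3) * 1 ≤ ((k : ℝ) - 3) * (δ * E) :=
          mul_le_mul_of_nonneg_left h4 (by linarith)
        linarith
      have h8 : (2 * τ - 3) * E = (2 * τ - 3) * δ + (14 - 8 * τ) * d := by
        rw [hE]; linear_combination (8 * (d : ℝ)) * tsq
      have h9 : (2 * τ - 3) * δ < 0.056 := by nlinarith
      nlinarith
  · -- small `d`
    have hdlt : d < 7 := by omega
    have hp' := abs_le.1 hp
    have hcase : (d = 1 ∧ p = 2) ∨ (d = 2 ∧ p = 3) ∨ (d = 3 ∧ p = 5) ∨ (d = 4 ∧ p = 6) ∨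
        (d = 5 ∧ p = 8) ∨ (d = 6 ∧ p = 10) := by
      have aux : ∀ (n : ℤ) (lo hi : ℝ), lo ≤ (p : ℝ) → (p : ℝ) ≤ hi → (n : ℝ) - 1 < lo → hi < n + 1 →
          p = n := by
        intro n lo hi h4 h5 h6 h7
        have h8 : (n : ℝ) - 1 < p := by linarith
        have h9 : (p : ℝ) < n + 1 := by linarith
        have h10 : n - 1 < p := by exact_mod_cast h8
        have h11 : p < n + 1 := by exact_mod_cast h9
        omega
      interval_cases d
      · exact Or.inl ⟨rfl, aux 2 (τ - 1 / 2) (τ + 1 / 2) (by push_cast at hp'; linarith)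
          (by push_cast at hp'; linarith) (by push_cast; linarith) (by push_cast; linarith)⟩
      · exact Or.inr (Or.inl ⟨rfl, aux 3 (2 * τ - 1 / 2) (2 * τ + 1 / 2) (by push_cast at hp'; linarith)
          (by push_cast at hp'; linarith) (by push_cast; linarith) (by push_cast; linarith)⟩)
      · exact Or.inr (Or.inr (Or.inl ⟨rfl, aux 5 (3 * τ - 1 / 2) (3 * τ + 1 / 2)
          (by push_cast at hp'; linarith)
          (by push_cast at hp'; linarith) (by push_cast; linarith) (by push_cast; linarith)⟩))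
      · exact Or.inr (Or.inr (Or.inr (Or.inl ⟨rfl, aux 6 (4 * τ - 1 / 2) (4 * τ + 1 / 2)
          (by push_cast at hp'; linarith)
          (by push_cast at hp'; linarith) (by push_cast; linarith) (by push_cast; linarith)⟩)))
      · exact Or.inr (Or.inr (Or.inr (Or.inr (Or.inl ⟨rfl, aux 8 (5 * τ - 1 / 2) (5 * τ + 1 / 2)
          (by push_cast at hp'; linarith)
          (by push_cast at hp'; linarith) (by push_cast; linarith) (by push_cast; linarith)⟩))))
      · exact Or.inr (Or.inr (Or.inr (Or.inr (Or.inr ⟨rfl, aux 10 (6 * τ - 1 / 2) (6 * τ + 1 / 2)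
          (by push_cast at hp'; linarith)
          (by push_cast at hp'; linarith) (by push_cast; linarith) (by push_cast; linarith)⟩))))
    rcases hcase with ⟨rfl, rfl⟩ | ⟨rfl, rfl⟩ | ⟨rfl, rfl⟩ | ⟨rfl, rfl⟩ | ⟨rfl, rfl⟩ | ⟨rfl, rfl⟩
    · exfalso
      push_cast at hσ
      rw [abs_of_nonpos (by linarith)] at hσ
      linarith
    · exfalso
      push_cast at hσ
      rw [abs_of_nonneg (by linarith)] at hσ
      linarith
    · exfalso
      push_cast at hσ
      rw [abs_of_nonpos (by linarith)] at hσ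
      linarith
    · push_cast at hop' ⊢
      rw [abs_of_nonneg (by linarith : (0 : ℝ) ≤ 4 * τ - 6)] at hop'
      obtain ⟨m, ⟨h4, h5⟩ | ⟨h4, h5⟩⟩ := hop'
      · have hm : m ≤ 2 := by
          by_contra hcon
          have h6 : (3 : ℝ) ≤ m := by exact_mod_cast (by omega : 3 ≤ m)
          nlinarith
        have h7 : (k : ℝ) ≤ 6 := by exact_mod_cast (by omega : k ≤ 6)
        linarith
      · have hm : m ≤ 1 := by
          by_contra hcon
          have h6 : (2 : ℝ) ≤ m := by exact_mod_cast (by omega : 2 ≤ m)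
          nlinarith
        have h7 : (k : ℝ) ≤ 5 := by exact_mod_cast (by omega : k ≤ 5)
        linarith
    · exfalso
      push_cast at hσ
      rw [abs_of_nonneg (by linarith)] at hσ
      linarith
    · exfalso
      push_cast at hσ
      rw [abs_of_nonpos (by linarith)] at hσ
      linarith

/-- the length bound -/
lemma main (hd : 1 ≤ d) (hk : 1 ≤ k) (hf : ∀ j < k, f (i + j * d) = f i) :
    ((k : ℝ) - 1) < d * (3 - τ) := by
  have hp := abs_sub_round ((d : ℝ) * τ)
  rcases le_or_gt |(d : ℝ) * τ - round ((d : ℝ) * τ)| (2 - τ) with h | h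
  · exact case_one hd hk hf hp h
  · exact case_two hd hk hf hp h

end main

/-- **MP_ca4252_co, Q1 (positive answer).**  The first part says that the words `W n` are prefixes of
`f`; the second that `A d` is the largest length of a monochromatic arithmetic progression of
difference `d` in `f`, and that `(A(d) - 1) / d < √5 / τ`. -/
theorem result :
    (∀ n i, i < (W n).length → (W n)[i]? = some (f i)) ∧
    ∀ d : ℕ, 1 ≤ d →
      (∃ i, ∀ j < A d, f (i + j * d) = f i) ∧
      (∀ k i, (∀ j < k, f (i + j * d) = f i) → k ≤ A d) ∧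
      ((A d : ℝ) - 1) / d < Real.sqrt 5 / Real.goldenRatio := by
  refine ⟨fun n i hi => ?_, fun d hd => ?_⟩
  · have h1 := W_letter n i (by rw [← W_length]; exact hi)
    rw [← f_eq] at h1
    have h2 : (W n).getD i 0 = f i := by exact_mod_cast h1
    rw [← h2, List.getElem?_eq_getElem hi, List.getD_eq_getElem _ _ hi]
  · set S : Set ℕ := {k : ℕ | ∃ i, ∀ j < k, f (i + j * d) = f i} with hS
    have hne : S.Nonempty := ⟨1, 0, fun j hj => by
      obtain rfl : j = 0 := by omega
      simp⟩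
    have hd0 : (0 : ℝ) < d := by exact_mod_cast hd
    have hb : ∀ k ∈ S, (k : ℝ) < d * (3 - τ) + 1 := by
      rintro k ⟨i, hi⟩
      rcases Nat.eq_zero_or_pos k with rfl | hk
      · have := t_lt
        push_cast
        nlinarith
      · have := main hd hk hi
        linarith
    have hbdd : BddAbove S := by
      refine ⟨⌈(d : ℝ) * (3 - τ) + 1⌉₊, fun k hk => ?_⟩
      have h1 := (hb k hk).le.trans (Nat.le_ceil _)
      exact_mod_cast h1
    have hmem : A d ∈ S := Nat.sSup_mem hne hbdd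
    refine ⟨hmem, fun k i hk => le_csSup hbdd ⟨i, hk⟩, ?_⟩
    have h2 := hb _ hmem
    change ((A d : ℝ) - 1) / d < Real.sqrt 5 / τ
    rw [target, div_lt_iff₀ hd0]
    linarith

end Pool.Agent.Results.MP_ca4252_co.FibonacciWord
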